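import Pool.Agent.Helper29.G4.P8a
import Pool.Agent.Helper22.G4.St.P7

set_option autoImplicit false

/-! # G4-P8: forcing a flat face -/

namespace Pool.Agent.Helper29.G4

open Pool.Agent.Helper22.G4 Submodule

variable {V : Type*}

lemma face_norm {c : V → E5} {A : Finset V} {Z : Set V} (h : FaceOn c A Z) {w : V} (hw : w ∈ A)
    (hwZ : w ∉ Z) :
    ∃ g : E5 →ₗ[ℝ] ℝ, (∀ v ∈ A, 0 ≤ g (c v)) ∧ (∀ v ∈ A, (g (c v) = 0 ↔ v ∈ Z)) ∧
      g (c w) = 1 := by
  obtain ⟨_, f, hf, hf0⟩ := h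
  have hne : f (c w) ≠ 0 := fun h => hwZ ((hf0 w hw).mp h)
  have hpos : 0 < f (c w) := lt_of_le_of_ne (hf w hw) (Ne.symm hne)
  refine ⟨(f (c w))⁻¹ • f, ?_, ?_, ?_⟩
  · intro v hv
    rw [LinearMap.smul_apply, smul_eq_mul]
    exact mul_nonneg (inv_nonneg.mpr hpos.le) (hf v hv)
  · intro v hv
    rw [LinearMap.smul_apply, smul_eq_mul, mul_eq_zero, inv_eq_zero, or_iff_right hne, hf0 v hv]
  · rw [LinearMap.smul_apply, smul_eq_mul, inv_mul_cancel₀ hne]

/-- Fact C: a positive combination of the vertices of a face `Z` which projects to an edge of the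
polygon. -/
lemma factC {c : V → E5} {A : Finset V} {p q a b : V} (hpA : p ∈ A) (hqA : q ∈ A)
    (hpq : p ≠ q) (hpa : p ≠ a) (hpb : p ≠ b) (hqa : q ≠ a) (hqb : q ≠ b)
    {g0 g1 gs : E5 →ₗ[ℝ] ℝ}
    (hker : ∀ x, g0 x = 0 → g1 x = 0 → gs x = 0 → ∃ α β : ℝ, x = α • c p + β • c q)
    (hp : FaceOn c A {p, a, b}) (hq : FaceOn c A {q, a, b})
    {Z : Finset V} (hZ : FaceOn c A (Z : Set V)) (hnot : ¬ (p ∈ Z ∧ q ∈ Z))
    {lam : V → ℝ} (hlam : ∀ w ∈ Z, 0 < lam w) {x : E5} (hx : x = ∑ w ∈ Z, lam w • c w)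
    {a' b' : ℝ} (ha' : 0 ≤ a') (hb' : 0 ≤ b')
    (h0 : g0 x = a' * g0 (c a) + b' * g0 (c b)) (h1 : g1 x = a' * g1 (c a) + b' * g1 (c b))
    (hs : gs x = a' * gs (c a) + b' * gs (c b)) :
    (Z : Set V) ⊆ {p, a, b} ∨ (Z : Set V) ⊆ {q, a, b} := by
  obtain ⟨α, β, hαβ⟩ := hker (x - a' • c a - b' • c b)
    (by simp only [map_sub, map_smul, smul_eq_mul]; linarith)
    (by simp only [map_sub, map_smul, smul_eq_mul]; linarith)
    (by simp only [map_sub, map_smul, smul_eq_mul]; linarith)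
  have hxe : x = a' • c a + b' • c b + α • c p + β • c q := by
    have : x = (x - a' • c a - b' • c b) + a' • c a + b' • c b := by abel
    rw [this, hαβ]; abel
  obtain ⟨hZA, fZ, hfZ, hfZ0⟩ := hZ
  obtain ⟨hpS, fp, hfp, hfp0⟩ := hp
  obtain ⟨hqS, fq, hfq, hfq0⟩ := hq
  have haA : a ∈ A := hpS (by simp)
  have hbA : b ∈ A := hpS (by simp)
  -- values at `x`
  have hval : ∀ f : E5 →ₗ[ℝ] ℝ, f x = ∑ w ∈ Z, lam w * f (c w) := by
    intro f; rw [hx, map_sum]; simp only [map_smul, smul_eq_mul]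
  have hval' : ∀ f : E5 →ₗ[ℝ] ℝ, f x = a' * f (c a) + b' * f (c b) + α * f (c p)
      + β * f (c q) := by
    intro f; rw [hxe]; simp only [map_add, map_smul, smul_eq_mul]
  have hnonneg : ∀ f : E5 →ₗ[ℝ] ℝ, (∀ w ∈ A, 0 ≤ f (c w)) → 0 ≤ f x := by
    intro f hf
    rw [hval f]
    exact Finset.sum_nonneg (fun w hw => mul_nonneg (hlam w hw).le (hf w (hZA hw)))
  have hpq' : q ∉ ({p, a, b} : Set V) := by
    simp only [Set.mem_insert_iff, Set.mem_singleton_iff, not_or]
    exact ⟨fun h => hpq h.symm, hqa, hqb⟩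
  have hqp' : p ∉ ({q, a, b} : Set V) := by
    simp only [Set.mem_insert_iff, Set.mem_singleton_iff, not_or]
    exact ⟨hpq, hpa, hpb⟩
  have fp_q : 0 < fp (c q) := lt_of_le_of_ne (hfp q hqA)
    (fun h => hpq' ((hfp0 q hqA).mp h.symm))
  have fq_p : 0 < fq (c p) := lt_of_le_of_ne (hfq p hpA)
    (fun h => hqp' ((hfq0 p hpA).mp h.symm))
  have fp_x : fp x = β * fp (c q) := by
    rw [hval' fp, (hfp0 a haA).mpr (by simp), (hfp0 b hbA).mpr (by simp),
      (hfp0 p hpA).mpr (by simp)]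
    ring
  have fq_x : fq x = α * fq (c p) := by
    rw [hval' fq, (hfq0 a haA).mpr (by simp), (hfq0 b hbA).mpr (by simp),
      (hfq0 q hqA).mpr (by simp)]
    ring
  have hβ : 0 ≤ β := by
    have := hnonneg fp hfp
    rw [fp_x] at this
    exact nonneg_of_mul_nonneg_left this fp_q
  have hα : 0 ≤ α := by
    have := hnonneg fq hfq
    rw [fq_x] at this
    exact nonneg_of_mul_nonneg_left this fq_p
  have fZx : fZ x = 0 := by
    rw [hval fZ]
    refine Finset.sum_eq_zero (fun w hw => ?_)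
    rw [(hfZ0 w (hZA hw)).mpr hw, mul_zero]
  have hsum := hval' fZ
  rw [fZx] at hsum
  have t1 : 0 ≤ a' * fZ (c a) := mul_nonneg ha' (hfZ a haA)
  have t2 : 0 ≤ b' * fZ (c b) := mul_nonneg hb' (hfZ b hbA)
  have t3 : 0 ≤ α * fZ (c p) := mul_nonneg hα (hfZ p hpA)
  have t4 : 0 ≤ β * fZ (c q) := mul_nonneg hβ (hfZ q hqA)
  -- vanishing of a functional at `x` gives vanishing on `Z`
  have hvan : ∀ (f : E5 →ₗ[ℝ] ℝ) (S : Set V), (∀ w ∈ A, 0 ≤ f (c w)) →
      (∀ w ∈ A, (f (c w) = 0 ↔ w ∈ S)) → f x = 0 → (Z : Set V) ⊆ S := by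
    intro f S hf hfS hfx w hw
    rw [hval f] at hfx
    have := (Finset.sum_eq_zero_iff_of_nonneg
      (fun w hw => mul_nonneg (hlam w hw).le (hf w (hZA hw)))).mp hfx w hw
    rcases mul_eq_zero.mp this with h | h
    · exact absurd h (hlam w hw).ne'
    · exact (hfS w (hZA hw)).mp h
  by_cases hpZ : p ∈ Z
  · -- then `q ∉ Z`
    have hqZ : q ∉ Z := fun h => hnot ⟨hpZ, h⟩
    have hne : fZ (c q) ≠ 0 := fun h => hqZ ((hfZ0 q hqA).mp h)
    have hβ0 : β = 0 := by
      have : β * fZ (c q) = 0 := by linarith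
      exact (mul_eq_zero.mp this).resolve_right hne
    left
    exact hvan fp _ hfp hfp0 (by rw [fp_x, hβ0, zero_mul])
  · have hne : fZ (c p) ≠ 0 := fun h => hpZ ((hfZ0 p hpA).mp h)
    have hα0 : α = 0 := by
      have : α * fZ (c p) = 0 := by linarith
      exact (mul_eq_zero.mp this).resolve_right hne
    right
    exact hvan fq _ hfq hfq0 (by rw [fq_x, hα0, zero_mul])

/-- the projection to the plane -/
noncomputable def plane (g0 g1 gs : E5 →ₗ[ℝ] ℝ) (x : E5) : ℝ × ℝ :=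
  (g0 x / (g0 x + g1 x + gs x), gs x / (g0 x + g1 x + gs x))

lemma plane_comb (g0 g1 gs : E5 →ₗ[ℝ] ℝ) {x y : E5} (hx : 0 < g0 x + g1 x + gs x)
    (hy : 0 < g0 y + g1 y + gs y) {a b : ℝ} (hab : a + b = 1) :
    plane g0 g1 gs ((a / (g0 x + g1 x + gs x)) • x + (b / (g0 y + g1 y + gs y)) • y)
      = a • plane g0 g1 gs x + b • plane g0 g1 gs y := by
  set Nx := g0 x + g1 x + gs x with hNx
  set Ny := g0 y + g1 y + gs y with hNy
  have hN : g0 ((a / Nx) • x + (b / Ny) • y) + g1 ((a / Nx) • x + (b / Ny) • y)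
      + gs ((a / Nx) • x + (b / Ny) • y) = 1 := by
    simp only [map_add, map_smul, smul_eq_mul]
    have : a / Nx * g0 x + b / Ny * g0 y + (a / Nx * g1 x + b / Ny * g1 y)
        + (a / Nx * gs x + b / Ny * gs y) = a / Nx * Nx + b / Ny * Ny := by
      rw [hNx, hNy]; ring
    rw [this, div_mul_cancel₀ _ hx.ne', div_mul_cancel₀ _ hy.ne', hab]
  unfold plane
  rw [hN, ← hNx, ← hNy]
  ext
  · simp only [map_add, map_smul, smul_eq_mul, div_one, Prod.smul_mk, Prod.mk_add_mk]
    ring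
  · simp only [map_add, map_smul, smul_eq_mul, div_one, Prod.smul_mk, Prod.mk_add_mk]
    ring

/-- Fact C in the plane. -/
lemma factC' {c : V → E5} {A : Finset V} {p q a b : V} (hpA : p ∈ A) (hqA : q ∈ A)
    (hpq : p ≠ q) (hpa : p ≠ a) (hpb : p ≠ b) (hqa : q ≠ a) (hqb : q ≠ b)
    {g0 g1 gs : E5 →ₗ[ℝ] ℝ}
    (hker : ∀ x, g0 x = 0 → g1 x = 0 → gs x = 0 → ∃ α β : ℝ, x = α • c p + β • c q)
    (hNa : 0 < g0 (c a) + g1 (c a) + gs (c a)) (hNb : 0 < g0 (c b) + g1 (c b) + gs (c b))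
    (hp : FaceOn c A {p, a, b}) (hq : FaceOn c A {q, a, b})
    {Z : Finset V} (hZ : FaceOn c A (Z : Set V)) (hnot : ¬ (p ∈ Z ∧ q ∈ Z))
    {lam : V → ℝ} (hlam : ∀ w ∈ Z, 0 < lam w) {x : E5} (hx : x = ∑ w ∈ Z, lam w • c w)
    (hNx : 0 < g0 x + g1 x + gs x)
    (hseg : plane g0 g1 gs x ∈ segment ℝ (plane g0 g1 gs (c a)) (plane g0 g1 gs (c b))) :
    (Z : Set V) ⊆ {p, a, b} ∨ (Z : Set V) ⊆ {q, a, b} := by
  obtain ⟨s, t, hs0, ht0, hst, he⟩ := hseg
  set Nx := g0 x + g1 x + gs x with hNxd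
  set Na := g0 (c a) + g1 (c a) + gs (c a) with hNad
  set Nb := g0 (c b) + g1 (c b) + gs (c b) with hNbd
  have he1 := congrArg Prod.fst he
  have he2 := congrArg Prod.snd he
  simp only [plane, ← hNxd, ← hNad, ← hNbd, Prod.smul_mk, Prod.mk_add_mk, smul_eq_mul] at he1 he2
  have k0 : g0 x = (s * Nx / Na) * g0 (c a) + (t * Nx / Nb) * g0 (c b) := by
    have : g0 x = g0 x / Nx * Nx := by rw [div_mul_cancel₀ _ hNx.ne']
    rw [this, ← he1]; ring
  have ks : gs x = (s * Nx / Na) * gs (c a) + (t * Nx / Nb) * gs (c b) := by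
    have : gs x = gs x / Nx * Nx := by rw [div_mul_cancel₀ _ hNx.ne']
    rw [this, ← he2]; ring
  have kN : Nx = (s * Nx / Na) * Na + (t * Nx / Nb) * Nb := by
    rw [div_mul_cancel₀ _ hNa.ne', div_mul_cancel₀ _ hNb.ne', ← add_mul, hst, one_mul]
  have k1 : g1 x = (s * Nx / Na) * g1 (c a) + (t * Nx / Nb) * g1 (c b) := by
    have e1 : g1 x = Nx - g0 x - gs x := by rw [hNxd]; ring
    have e2 : g1 (c a) = Na - g0 (c a) - gs (c a) := by rw [hNad]; ring
    have e3 : g1 (c b) = Nb - g0 (c b) - gs (c b) := by rw [hNbd]; ring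
    rw [e1, e2, e3]
    linear_combination kN - k0 - ks
  exact factC hpA hqA hpq hpa hpb hqa hqb hker hp hq hZ hnot hlam hx
    (div_nonneg (mul_nonneg hs0 hNx.le) hNa.le) (div_nonneg (mul_nonneg ht0 hNx.le) hNb.le)
    k0 k1 ks

/-- the facet on one side of a ridge -/
lemma exists_side {c : V → E5} {A : Finset V} {T : Set V} {f g : E5 →ₗ[ℝ] ℝ}
    (hf : ∀ w ∈ A, 0 ≤ f (c w)) (hf0 : ∀ w ∈ A, (f (c w) = 0 ↔ w ∈ T)) (hTA : T ⊆ A)
    (hgT : ∀ w ∈ A, w ∈ T → g (c w) = 0) (hex : ∃ w ∈ A, 0 < g (c w)) :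
    ∃ F : Finset V, FaceOn c A (F : Set V) ∧ T ⊆ F ∧ (∀ w ∈ F, w ∈ T ∨ 0 < g (c w)) ∧
      ∃ w ∈ F, 0 < g (c w) ∧ f (c w) ≠ 0 := by
  classical
  set B : Finset V := A.filter (fun w => 0 < g (c w)) with hB
  have hBne : B.Nonempty := by
    obtain ⟨w, hw, hgw⟩ := hex
    exact ⟨w, Finset.mem_filter.mpr ⟨hw, hgw⟩⟩
  obtain ⟨w0, hw0, hmin⟩ := Finset.exists_min_image B (fun w => f (c w) / g (c w)) hBne
  obtain ⟨hw0A, hgw0⟩ := Finset.mem_filter.mp hw0
  have hfpos : ∀ w ∈ A, 0 < g (c w) → 0 < f (c w) := by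
    intro w hw hgw
    refine lt_of_le_of_ne (hf w hw) (fun h => ?_)
    have := hgT w hw ((hf0 w hw).mp h.symm)
    exact absurd this hgw.ne'
  set t : ℝ := f (c w0) / g (c w0) with ht
  have htpos : 0 < t := div_pos (hfpos w0 hw0A hgw0) hgw0
  have hnn : ∀ w ∈ A, 0 ≤ f (c w) - t * g (c w) := by
    intro w hw
    rcases lt_or_ge 0 (g (c w)) with h | h
    · have := hmin w (Finset.mem_filter.mpr ⟨hw, h⟩)
      rw [le_div_iff₀ h] at this
      linarith
    · have := hf w hw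
      nlinarith
  refine ⟨A.filter (fun w => f (c w) - t * g (c w) = 0), ?_, ?_, ?_, w0, ?_, hgw0, ?_⟩
  · refine ⟨?_, f - t • g, ?_, ?_⟩
    · intro w hw
      exact (Finset.mem_filter.mp (Finset.mem_coe.mp hw)).1
    · intro w hw
      simpa using hnn w hw
    · intro w hw
      simp [hw]
  · intro w hw
    have hwA := hTA hw
    refine Finset.mem_coe.mpr (Finset.mem_filter.mpr ⟨hwA, ?_⟩)
    rw [(hf0 w hwA).mpr hw, hgT w hwA hw]; ring
  · intro w hw
    obtain ⟨hwA, h⟩ := Finset.mem_filter.mp hw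
    by_cases hg : 0 < g (c w)
    · exact Or.inr hg
    · left
      rw [← hf0 w hwA]
      have h1 := hf w hwA
      have h2 : g (c w) ≤ 0 := not_lt.mp hg
      nlinarith
  · refine Finset.mem_filter.mpr ⟨hw0A, ?_⟩
    rw [ht, div_mul_cancel₀ _ hgw0.ne', sub_self]
  · exact (hfpos w0 hw0A hgw0).ne'

/-- G4-P8 (forcing a flat face). -/
theorem forcing {c : V → E5} {A : Finset V} (hc : Conf c A) (hr : span ℝ (c '' (A : Set V)) = ⊤)
    {n : ℕ} (r : Fin (n + 4) → V) (hinj : Function.Injective r) (hrA : ∀ i, r i ∈ A)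
    {p q s : V} (hpA : p ∈ A) (hqA : q ∈ A) (hsA : s ∈ A) (hpq : p ≠ q) (hps : p ≠ s) (hqs : q ≠ s)
    (hpr : ∀ i, p ≠ r i) (hqr : ∀ i, q ≠ r i) (hsr : ∀ i, s ≠ r i)
    (hp : ∀ i, FaceOn c A {p, r i, r (i + 1)}) (hp3 : ∀ i, rk c {p, r i, r (i + 1)} = 3)
    (hq : ∀ i, FaceOn c A {q, r i, r (i + 1)})
    (h0 : FaceOn c A {p, q, r 0, r 1}) (h04 : rk c {p, q, r 0, r 1} = 4)
    (h1 : FaceOn c A {p, q, s, r 1}) (h14 : rk c {p, q, s, r 1} = 4)
    (h2 : FaceOn c A {p, q, s, r 0}) (h24 : rk c {p, q, s, r 0} = 4)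
    (hchord : ∀ i j, j ≠ i → j ≠ i + 1 → i ≠ j + 1 → ¬ FaceOn c A {r i, r j})
    (hconn : ∀ u ∈ A, ∀ v ∈ A, u ∉ Set.range r → v ∉ Set.range r → u ≠ p → u ≠ q → v ≠ p →
      v ≠ q → Relation.ReflTransGen (fun a b => b ∈ A ∧ b ∉ Set.range r ∧ b ≠ p ∧ b ≠ q ∧
        a ≠ b ∧ FaceOn c A {a, b}) u v) :
    FaceOn c A (Set.range r) ∧ rk c (Set.range r) = 3 := by
  classical
  have h10 : (1 : Fin (n + 4)) ≠ 0 := by simp
  have h20 : (1 + 1 : Fin (n + 4)) ≠ 0 := two_ne_zero' n
  have h21 : (1 + 1 : Fin (n + 4)) ≠ 1 := by simp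
  have r10 : r 1 ≠ r 0 := fun h => h10 (hinj h)
  have r20 : r (1 + 1) ≠ r 0 := fun h => h20 (hinj h)
  have r21 : r (1 + 1) ≠ r 1 := fun h => h21 (hinj h)
  -- the three functionals
  obtain ⟨gs, gs_nn, gs_z, gs_s⟩ := face_norm h0 hsA (by
    simp only [Set.mem_insert_iff, Set.mem_singleton_iff, not_or]
    exact ⟨fun h => hps h.symm, fun h => hqs h.symm, hsr 0, hsr 1⟩)
  obtain ⟨g0, g0_nn, g0_z, g0_r⟩ := face_norm h1 (hrA 0) (by
    simp only [Set.mem_insert_iff, Set.mem_singleton_iff, not_or]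
    exact ⟨fun h => hpr 0 h.symm, fun h => hqr 0 h.symm, fun h => hsr 0 h.symm,
      fun h => r10 h.symm⟩)
  obtain ⟨g1, g1_nn, g1_z, g1_r⟩ := face_norm h2 (hrA 1) (by
    simp only [Set.mem_insert_iff, Set.mem_singleton_iff, not_or]
    exact ⟨fun h => hpr 1 h.symm, fun h => hqr 1 h.symm, fun h => hsr 1 h.symm, r10⟩)
  have gs_p : gs (c p) = 0 := (gs_z p hpA).mpr (by simp)
  have gs_q : gs (c q) = 0 := (gs_z q hqA).mpr (by simp)
  have gs_0 : gs (c (r 0)) = 0 := (gs_z _ (hrA 0)).mpr (by simp)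
  have gs_1 : gs (c (r 1)) = 0 := (gs_z _ (hrA 1)).mpr (by simp)
  have g0_p : g0 (c p) = 0 := (g0_z p hpA).mpr (by simp)
  have g0_q : g0 (c q) = 0 := (g0_z q hqA).mpr (by simp)
  have g0_s : g0 (c s) = 0 := (g0_z s hsA).mpr (by simp)
  have g0_1 : g0 (c (r 1)) = 0 := (g0_z _ (hrA 1)).mpr (by simp)
  have g1_p : g1 (c p) = 0 := (g1_z p hpA).mpr (by simp)
  have g1_q : g1 (c q) = 0 := (g1_z q hqA).mpr (by simp)
  have g1_s : g1 (c s) = 0 := (g1_z s hsA).mpr (by simp)
  have g1_0 : g1 (c (r 0)) = 0 := (g1_z _ (hrA 0)).mpr (by simp)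
  -- the kernel
  have hker : ∀ x, g0 x = 0 → g1 x = 0 → gs x = 0 → ∃ α β : ℝ, x = α • c p + β • c q := by
    obtain ⟨_, fp, fp_nn, fp_z⟩ := hc.vert p hpA
    obtain ⟨_, fq, fq_nn, fq_z⟩ := hc.vert q hqA
    have fp_p : fp (c p) = 0 := (fp_z p hpA).mpr rfl
    have fq_q : fq (c q) = 0 := (fq_z q hqA).mpr rfl
    have fp_q : fp (c q) ≠ 0 := fun h => hpq ((fp_z q hqA).mp h).symm
    have fq_p : fq (c p) ≠ 0 := fun h => hpq ((fq_z p hpA).mp h)
    set v : Fin 5 → E5 := ![c p, c q, c (r 0), c (r 1), c s] with hv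
    have hsumv : ∀ a : Fin 5 → ℝ, ∑ i, a i • v i
        = a 0 • c p + a 1 • c q + a 2 • c (r 0) + a 3 • c (r 1) + a 4 • c s := by
      intro a
      rw [Fin.sum_univ_five]
      rfl
    have hli : LinearIndependent ℝ v := by
      rw [Fintype.linearIndependent_iff]
      intro a ha
      rw [hsumv] at ha
      have e4 := congrArg gs ha
      have e2 := congrArg g0 ha
      have e3 := congrArg g1 ha
      simp only [map_add, map_smul, smul_eq_mul, map_zero, gs_p, gs_q, gs_0, gs_1, gs_s, g0_p,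
        g0_q, g0_r, g0_1, g0_s, g1_p, g1_q, g1_0, g1_r, g1_s, mul_zero, mul_one, add_zero,
        zero_add] at e4 e2 e3
      rw [e4, e2, e3] at ha
      simp only [zero_smul, add_zero] at ha
      have e1 := congrArg fp ha
      have e0 := congrArg fq ha
      simp only [map_add, map_smul, smul_eq_mul, map_zero, fp_p, fq_q, mul_zero, add_zero,
        zero_add] at e1 e0
      have a1 : a 1 = 0 := (mul_eq_zero.mp e1).resolve_right fp_q
      have a0 : a 0 = 0 := (mul_eq_zero.mp e0).resolve_right fq_p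
      intro i
      fin_cases i
      · exact a0
      · exact a1
      · exact e2
      · exact e3
      · exact e4
    have htop : span ℝ (Set.range v) = ⊤ :=
      hli.span_eq_top_of_card_eq_finrank (by simp)
    intro x k0 k1 ks
    have hx : x ∈ span ℝ (Set.range v) := by rw [htop]; trivial
    obtain ⟨a, ha⟩ := (Submodule.mem_span_range_iff_exists_fun ℝ).mp hx
    rw [hsumv] at ha
    rw [← ha] at k0 k1 ks
    simp only [map_add, map_smul, smul_eq_mul, gs_p, gs_q, gs_0, gs_1, gs_s, g0_p,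
        g0_q, g0_r, g0_1, g0_s, g1_p, g1_q, g1_0, g1_r, g1_s, mul_zero, mul_one, add_zero,
        zero_add] at k0 k1 ks
    refine ⟨a 0, a 1, ?_⟩
    rw [← ha, k0, k1, ks]
    simp
  -- positivity of `N`
  have hN : ∀ w ∈ A, w ≠ p → w ≠ q → 0 < g0 (c w) + g1 (c w) + gs (c w) := by
    intro w hw hwp hwq
    have e0 := g0_nn w hw
    have e1 := g1_nn w hw
    have es := gs_nn w hw
    rcases (add_nonneg (add_nonneg e0 e1) es).lt_or_eq with h | h
    · exact h
    · exfalso
      have z0 : g0 (c w) = 0 := by linarith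
      have zs : gs (c w) = 0 := by linarith
      have z1 : g1 (c w) = 0 := by linarith
      have m0 := (g0_z w hw).mp z0
      have m1 := (g1_z w hw).mp z1
      have ms := (gs_z w hw).mp zs
      simp only [Set.mem_insert_iff, Set.mem_singleton_iff] at m0 m1 ms
      rcases ms with h | h | h | h
      · exact hwp h
      · exact hwq h
      · subst h
        rcases m0 with h | h | h | h
        · exact hpr 0 h.symm
        · exact hqr 0 h.symm
        · exact hsr 0 h.symm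
        · exact r10 h.symm
      · subst h
        rcases m1 with h | h | h | h
        · exact hpr 1 h.symm
        · exact hqr 1 h.symm
        · exact hsr 1 h.symm
        · exact r10 h
  have hNr : ∀ i, 0 < g0 (c (r i)) + g1 (c (r i)) + gs (c (r i)) := fun i =>
    hN _ (hrA i) (fun h => hpr i h.symm) (fun h => hqr i h.symm)
  have hNnn : ∀ w ∈ A, 0 ≤ g0 (c w) + g1 (c w) + gs (c w) := fun w hw =>
    add_nonneg (add_nonneg (g0_nn w hw) (g1_nn w hw)) (gs_nn w hw)
  set Pi : E5 → ℝ × ℝ := plane g0 g1 gs with hPi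
  set P : Fin (n + 4) → ℝ × ℝ := fun i => Pi (c (r i)) with hP
  -- Fact C for this polygon
  have hC : ∀ (i : Fin (n + 4)) (Z : Finset V), FaceOn c A (Z : Set V) → ¬ (p ∈ Z ∧ q ∈ Z) →
      ∀ (lam : V → ℝ), (∀ w ∈ Z, 0 < lam w) → ∀ x : E5, x = ∑ w ∈ Z, lam w • c w →
      0 < g0 x + g1 x + gs x → Pi x ∈ segment ℝ (P i) (P (i + 1)) →
      (Z : Set V) ⊆ {p, r i, r (i + 1)} ∨ (Z : Set V) ⊆ {q, r i, r (i + 1)} := by
    intro i Z hZ hnot lam hlam x hx hNx hseg
    exact factC' hpA hqA hpq (hpr i) (hpr (i + 1)) (hqr i) (hqr (i + 1)) hker (hNr i)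
      (hNr (i + 1)) (hp i) (hq i) hZ hnot hlam hx hNx hseg
  -- positivity of coordinates at `r 2`
  have g0_2 : 0 < g0 (c (r (1 + 1))) := by
    refine lt_of_le_of_ne (g0_nn _ (hrA _)) (fun h => ?_)
    have := (g0_z _ (hrA (1 + 1))).mp h.symm
    simp only [Set.mem_insert_iff, Set.mem_singleton_iff] at this
    rcases this with h | h | h | h
    · exact hpr _ h.symm
    · exact hqr _ h.symm
    · exact hsr _ h.symm
    · exact r21 h
  have gs_2 : 0 < gs (c (r (1 + 1))) := by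
    refine lt_of_le_of_ne (gs_nn _ (hrA _)) (fun h => ?_)
    have := (gs_z _ (hrA (1 + 1))).mp h.symm
    simp only [Set.mem_insert_iff, Set.mem_singleton_iff] at this
    rcases this with h | h | h | h
    · exact hpr _ h.symm
    · exact hqr _ h.symm
    · exact r20 h
    · exact r21 h
  have hP1 : P 1 = (0, 0) := by
    rw [hP]; simp only [hPi, plane, g0_1, gs_1, zero_div]
  have hP2 : 0 < (P (1 + 1)).1 := by
    rw [hP]; simp only [hPi, plane]
    exact div_pos g0_2 (hNr _)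
  obtain ⟨W, hW1, hW2⟩ := parity P 1 (by rw [hP1]; exact hP2.ne)
  -- outside vertices
  have hout : ∀ w ∈ A, w ∉ Set.range r → w ≠ p → w ≠ q → ∀ i,
      ¬ (({w} : Set V) ⊆ {p, r i, r (i + 1)} ∨ ({w} : Set V) ⊆ {q, r i, r (i + 1)}) := by
    intro w hw hwr hwp hwq i h
    rcases h with h | h
    · rcases h (Set.mem_singleton w) with h | h | h
      · exact hwp h
      · exact hwr ⟨i, h.symm⟩
      · exact hwr ⟨i + 1, h.symm⟩
    · rcases h (Set.mem_singleton w) with h | h | h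
      · exact hwq h
      · exact hwr ⟨i, h.symm⟩
      · exact hwr ⟨i + 1, h.symm⟩
  have hpt : ∀ w ∈ A, w ∉ Set.range r → w ≠ p → w ≠ q → ∀ i,
      Pi (c w) ∉ segment ℝ (P i) (P (i + 1)) := by
    intro w hw hwr hwp hwq i hseg
    refine hout w hw hwr hwp hwq i ?_
    have := hC i {w} (by rw [Finset.coe_singleton]; exact hc.vert w hw)
      (fun h => hpq ((Finset.mem_singleton.mp h.1).trans (Finset.mem_singleton.mp h.2).symm))
      (fun _ => 1) (fun _ _ => one_pos) (c w) (by simp) (hN w hw hwp hwq) hseg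
    rwa [Finset.coe_singleton] at this
  -- edges between outside vertices
  have hedge : ∀ w ∈ A, ∀ w' ∈ A, w ∉ Set.range r → w ≠ p → w ≠ q → w' ∉ Set.range r → w' ≠ p →
      w' ≠ q → w ≠ w' → FaceOn c A {w, w'} → W (Pi (c w)) = W (Pi (c w')) := by
    intro w hw w' hw' hwr hwp hwq hwr' hwp' hwq' hne hface
    apply hW1
    intro i
    rw [Set.disjoint_left]
    rintro y ⟨a, b, ha, hb, hab, rfl⟩ hy
    rcases ha.eq_or_lt with ha0 | ha0
    · have hb1 : b = 1 := by linarith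
      rw [← ha0, hb1, zero_smul, one_smul, zero_add] at hy
      exact hpt w' hw' hwr' hwp' hwq' i hy
    rcases hb.eq_or_lt with hb0 | hb0
    · have ha1 : a = 1 := by linarith
      rw [← hb0, ha1, zero_smul, one_smul, add_zero] at hy
      exact hpt w hw hwr hwp hwq i hy
    have hNw := hN w hw hwp hwq
    have hNw' := hN w' hw' hwp' hwq'
    rw [hPi, ← plane_comb g0 g1 gs hNw hNw' hab] at hy
    set a' := a / (g0 (c w) + g1 (c w) + gs (c w)) with ha'
    set b' := b / (g0 (c w') + g1 (c w') + gs (c w')) with hb'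
    have ha'p : 0 < a' := div_pos ha0 hNw
    have hb'p : 0 < b' := div_pos hb0 hNw'
    have hres := hC i {w, w'} (by rw [Finset.coe_insert, Finset.coe_singleton]; exact hface)
      (by
        rintro ⟨h, -⟩
        rcases Finset.mem_insert.mp h with h | h
        · exact hwp h.symm
        · exact hwp' (Finset.mem_singleton.mp h).symm)
      (fun t => if t = w then a' else b')
      (by
        intro t _
        by_cases h : t = w
        · simp only [h, if_true]; exact ha'p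
        · simp only [h, if_false]; exact hb'p)
      (a' • c w + b' • c w')
      (by
        rw [Finset.sum_pair hne]
        simp only [if_true, hne.symm, if_false])
      (by
        simp only [map_add, map_smul, smul_eq_mul]
        have : a' * g0 (c w) + b' * g0 (c w') + (a' * g1 (c w) + b' * g1 (c w'))
          + (a' * gs (c w) + b' * gs (c w')) = a' * (g0 (c w) + g1 (c w) + gs (c w))
            + b' * (g0 (c w') + g1 (c w') + gs (c w')) := by ring
        rw [this]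
        positivity)
      hy
    rw [Finset.coe_insert, Finset.coe_singleton] at hres
    refine hout w hw hwr hwp hwq i ?_
    rcases hres with h | h
    · exact Or.inl (fun t ht => h (by rw [Set.mem_singleton_iff.mp ht]; simp))
    · exact Or.inr (fun t ht => h (by rw [Set.mem_singleton_iff.mp ht]; simp))
  -- connectivity
  have hWconn : ∀ u ∈ A, ∀ v ∈ A, u ∉ Set.range r → v ∉ Set.range r → u ≠ p → u ≠ q → v ≠ p →
      v ≠ q → W (Pi (c u)) = W (Pi (c v)) := by
    intro u hu v hv hur hvr hup huq hvp hvq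
    have hpath := hconn u hu v hv hur hvr hup huq hvp hvq
    have hind : ∀ v', Relation.ReflTransGen (fun a b => b ∈ A ∧ b ∉ Set.range r ∧ b ≠ p ∧ b ≠ q ∧
        a ≠ b ∧ FaceOn c A {a, b}) u v' →
        (v' ∈ A ∧ v' ∉ Set.range r ∧ v' ≠ p ∧ v' ≠ q) ∧ W (Pi (c u)) = W (Pi (c v')) := by
      intro v' h
      induction h with
      | refl => exact ⟨⟨hu, hur, hup, huq⟩, rfl⟩
      | tail h1 h2 ih =>
        obtain ⟨⟨i1, i2, i3, i4⟩, i5⟩ := ih
        obtain ⟨j1, j2, j3, j4, j5, j6⟩ := h2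
        exact ⟨⟨j1, j2, j3, j4⟩, i5.trans (hedge _ i1 _ j1 i2 i3 i4 j2 j3 j4 j5 j6)⟩
    exact (hind v hpath).2
  -- the ridge `{p, r 1, r 2}`
  obtain ⟨hTA, f, f_nn, f_z⟩ := hp 1
  set T : Set V := {p, r 1, r (1 + 1)} with hT
  set g : E5 →ₗ[ℝ] ℝ := gs (c (r (1 + 1))) • g0 - g0 (c (r (1 + 1))) • gs with hg
  have hgx : ∀ x, g x = gs (c (r (1 + 1))) * g0 x - g0 (c (r (1 + 1))) * gs x := by
    intro x; rw [hg]; simp
  have hgT : ∀ w ∈ A, w ∈ T → g (c w) = 0 := by
    intro w _ hw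
    rw [hgx]
    rcases hw with h | h | h
    · rw [h, g0_p, gs_p]; ring
    · rw [h, g0_1, gs_1]; ring
    · rw [Set.mem_singleton_iff.mp h]; ring
  have hq_T : q ∉ T := by
    simp only [hT, Set.mem_insert_iff, Set.mem_singleton_iff, not_or]
    exact ⟨fun h => hpq h.symm, hqr _, hqr _⟩
  have hgq : g (c q) = 0 := by rw [hgx, g0_q, gs_q]; ring
  obtain ⟨Fp, hFp, hTFp, hFp1, wp, hwpF, hwpg, hwpf⟩ := exists_side f_nn f_z hTA hgT
    ⟨r 0, hrA 0, by rw [hgx, g0_r, gs_0]; simpa using gs_2⟩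
  obtain ⟨Fm, hFm, hTFm, hFm1, wm, hwmF, hwmg, hwmf⟩ := exists_side (g := -g) f_nn f_z hTA
    (fun w hw hwT => by rw [LinearMap.neg_apply, hgT w hw hwT, neg_zero])
    ⟨s, hsA, by rw [LinearMap.neg_apply, hgx, g0_s, gs_s]; simpa using g0_2⟩
  -- general facts on both sides
  have hside : ∀ F : Finset V, FaceOn c A (F : Set V) → T ⊆ F → (∃ w ∈ F, f (c w) ≠ 0) →
      4 ≤ rk c (F : Set V) := by
    rintro F _ hTF ⟨w, hw, hfw⟩
    have := rk_insert_lt hTF f (fun w hw => (f_z w (hTA hw)).mpr hw) (Finset.mem_coe.mpr hw) hfw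
    rw [hT, hp3 1] at this
    omega
  have hrkp : 4 ≤ rk c (Fp : Set V) := hside Fp hFp hTFp ⟨wp, hwpF, hwpf⟩
  have hrkm : 4 ≤ rk c (Fm : Set V) := hside Fm hFm hTFm ⟨wm, hwmF, hwmf⟩
  have hqFp : q ∉ Fp := by
    intro h
    rcases hFp1 q h with h | h
    · exact hq_T h
    · rw [hgq] at h; exact lt_irrefl _ h
  have hqFm : q ∉ Fm := by
    intro h
    rcases hFm1 q h with h | h
    · exact hq_T h
    · rw [LinearMap.neg_apply, hgq, neg_zero] at h; exact lt_irrefl _ h
  have hsmall : ∀ F : Finset V, 4 ≤ rk c (F : Set V) → p ∈ F → ∀ i,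
      ¬ ((F : Set V) ⊆ {p, r i, r (i + 1)} ∨ (F : Set V) ⊆ {q, r i, r (i + 1)}) := by
    intro F hF hpF i h
    rcases h with h | h
    · have h1 : rk c (F : Set V) ≤ rk c {p, r i, r (i + 1)} :=
        Submodule.finrank_mono (span_mono (Set.image_mono h))
      rw [hp3 i] at h1
      omega
    · rcases h (Finset.mem_coe.mpr hpF) with h | h | h
      · exact hpq h
      · exact hpr i h
      · exact hpr (i + 1) h
  have hpT : p ∈ T := by simp [hT]
  have h1T : r 1 ∈ T := by simp [hT]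
  have h2T : r (1 + 1) ∈ T := by simp [hT]
  -- a point of the segment from `x` (a positive combination of `F`) to the image of `y`
  have hmiss : ∀ F : Finset V, FaceOn c A (F : Set V) → 4 ≤ rk c (F : Set V) → p ∈ F → q ∉ F →
      ∀ (mu : V → ℝ), (∀ w ∈ F, 0 ≤ mu w) → ∀ (y x : E5), y = ∑ w ∈ F, mu w • c w →
      0 < g0 y + g1 y + gs y → x = ∑ w ∈ F, c w → 0 < g0 x + g1 x + gs x →
      ∀ (a b : ℝ), 0 ≤ a → 0 < b → a + b = 1 → ∀ i,
      a • Pi y + b • Pi x ∉ segment ℝ (P i) (P (i + 1)) := by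
    intro F hF hrkF hpF hqF mu hmu y x hy hNy hx hNx a b ha hb hab i hseg
    rw [hPi, ← plane_comb g0 g1 gs hNy hNx hab] at hseg
    set a' := a / (g0 y + g1 y + gs y) with ha'
    set b' := b / (g0 x + g1 x + gs x) with hb'
    have ha'p : 0 ≤ a' := div_nonneg ha hNy.le
    have hb'p : 0 < b' := div_pos hb hNx
    refine hsmall F hrkF hpF i (hC i F hF (fun h => hqF h.2) (fun w => a' * mu w + b')
      (fun w hw => ?_) (a' • y + b' • x) ?_ ?_ hseg)
    · have := hmu w hw
      positivity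
    · rw [hy, hx, Finset.smul_sum, Finset.smul_sum, ← Finset.sum_add_distrib]
      refine Finset.sum_congr rfl (fun w _ => ?_)
      rw [add_smul, mul_smul]
    · simp only [map_add, map_smul, smul_eq_mul]
      have : a' * g0 y + b' * g0 x + (a' * g1 y + b' * g1 x) + (a' * gs y + b' * gs x)
          = a' * (g0 y + g1 y + gs y) + b' * (g0 x + g1 x + gs x) := by ring
      rw [this]
      positivity
  -- the sums
  have hsumN : ∀ F : Finset V, (F : Set V) ⊆ A → r 1 ∈ F →
      0 < g0 (∑ w ∈ F, c w) + g1 (∑ w ∈ F, c w) + gs (∑ w ∈ F, c w) := by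
    intro F hFA h1F
    rw [map_sum, map_sum, map_sum, ← Finset.sum_add_distrib, ← Finset.sum_add_distrib]
    exact Finset.sum_pos' (fun w hw => hNnn w (hFA hw)) ⟨r 1, h1F, hNr 1⟩
  set xp : E5 := ∑ w ∈ Fp, c w with hxp
  set xm : E5 := ∑ w ∈ Fm, c w with hxm
  have hNxp : 0 < g0 xp + g1 xp + gs xp := hsumN Fp hFp.1 (hTFp h1T)
  have hNxm : 0 < g0 xm + g1 xm + gs xm := hsumN Fm hFm.1 (hTFm h1T)
  have hgxp : 0 < g xp := by
    rw [hxp, map_sum]
    refine Finset.sum_pos' (fun w hw => ?_) ⟨wp, hwpF, hwpg⟩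
    rcases hFp1 w hw with h | h
    · rw [hgT w (hFp.1 hw) h]
    · exact h.le
  have hgxm : g xm < 0 := by
    have : 0 < (-g) xm := by
      rw [hxm, map_sum]
      refine Finset.sum_pos' (fun w hw => ?_) ⟨wm, hwmF, hwmg⟩
      rcases hFm1 w hw with h | h
      · rw [LinearMap.neg_apply, hgT w (hFm.1 hw) h, neg_zero]
      · exact h.le
    rw [LinearMap.neg_apply] at this
    linarith
  -- the base point
  set y12 : E5 := c (r 1) + c (r (1 + 1)) with hy12
  have hNy : 0 < g0 y12 + g1 y12 + gs y12 := by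
    rw [hy12]
    simp only [map_add]
    have := hNr 1
    have := hNr (1 + 1)
    linarith
  have hy12sum : ∀ F : Finset V, T ⊆ F →
      y12 = ∑ w ∈ F, (if w = r 1 ∨ w = r (1 + 1) then (1 : ℝ) else 0) • c w := by
    intro F hTF
    have hsub : ({r 1, r (1 + 1)} : Finset V) ⊆ F := by
      intro w hw
      rcases Finset.mem_insert.mp hw with h | h
      · rw [h]; exact hTF h1T
      · rw [Finset.mem_singleton.mp h]; exact hTF h2T
    rw [← Finset.sum_subset hsub]
    · rw [Finset.sum_pair r21.symm]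
      simp [hy12]
    · intro w _ hw
      have : ¬ (w = r 1 ∨ w = r (1 + 1)) := by
        intro h
        apply hw
        rcases h with h | h
        · rw [h]; simp
        · rw [h]; simp
      rw [if_neg this, zero_smul]
  have hmissT : ∀ F : Finset V, FaceOn c A (F : Set V) → 4 ≤ rk c (F : Set V) → T ⊆ F → q ∉ F →
      ∀ t : ℝ, 0 < t → t ≤ 1 → ∀ i, Pi y12 + t • (Pi (∑ w ∈ F, c w) - Pi y12) ∉
        segment ℝ (P i) (P (i + 1)) := by
    intro F hF hrkF hTF hqF t ht0 ht1 i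
    have h := hmiss F hF hrkF (hTF hpT) hqF
      (fun w => if w = r 1 ∨ w = r (1 + 1) then (1 : ℝ) else 0)
      (fun w _ => by split_ifs <;> norm_num) y12 (∑ w ∈ F, c w) (hy12sum F hTF) hNy rfl
      (hsumN F hF.1 (hTF h1T)) (1 - t) t (by linarith) ht0 (by ring) i
    have he : Pi y12 + t • (Pi (∑ w ∈ F, c w) - Pi y12)
        = (1 - t) • Pi y12 + t • Pi (∑ w ∈ F, c w) := by
      rw [smul_sub, sub_smul, one_smul]; abel
    rw [he]
    exact h
  have hopen : Pi y12 ∈ openSegment ℝ (P 1) (P (1 + 1)) := by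
    have e1 := hNr 1
    have e2 := hNr (1 + 1)
    set N1 := g0 (c (r 1)) + g1 (c (r 1)) + gs (c (r 1)) with hN1
    set N2 := g0 (c (r (1 + 1))) + g1 (c (r (1 + 1))) + gs (c (r (1 + 1))) with hN2
    refine ⟨N1 / (N1 + N2), N2 / (N1 + N2), by positivity, by positivity, ?_, ?_⟩
    · rw [← add_div, div_self (by positivity)]
    · have hab : N1 / (N1 + N2) + N2 / (N1 + N2) = 1 := by
        rw [← add_div, div_self (by positivity)]
      have h := plane_comb g0 g1 gs (x := c (r 1)) (y := c (r (1 + 1))) e1 e2 hab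
      rw [← hN1, ← hN2] at h
      rw [hP]
      simp only [hPi]
      rw [← h]
      have e3 : N1 / (N1 + N2) / N1 = 1 / (N1 + N2) := by field_simp
      have e4 : N2 / (N1 + N2) / N2 = 1 / (N1 + N2) := by field_simp
      rw [e3, e4, ← smul_add, ← hy12]
      have e5 : g0 y12 + g1 y12 + gs y12 = N1 + N2 := by
        rw [hy12, hN1, hN2]; simp only [map_add]; ring
      have e6 : (0 : ℝ) < N1 + N2 := by positivity
      unfold plane
      have e7 : g0 ((1 / (N1 + N2)) • y12) + g1 ((1 / (N1 + N2)) • y12)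
          + gs ((1 / (N1 + N2)) • y12) = 1 := by
        simp only [map_smul, smul_eq_mul]
        rw [← mul_add, ← mul_add, e5, one_div, inv_mul_cancel₀ e6.ne']
      rw [e7, e5]
      ext
      · simp only [map_smul, smul_eq_mul, div_one]; ring
      · simp only [map_smul, smul_eq_mul, div_one]; ring
  have hother : ∀ i, i ≠ 1 → Pi y12 ∉ segment ℝ (P i) (P (i + 1)) := by
    intro i hi hseg
    have hface : FaceOn c A (({r 1, r (1 + 1)} : Finset V) : Set V) := by
      have hTc : (({p, r 1, r (1 + 1)} : Finset V) : Set V) = T := by simp [hT]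
      have hcard : ({p, r 1, r (1 + 1)} : Finset V).card ≤ 3 := Finset.card_le_three
      refine FaceOn.of_simplex (T := {p, r 1, r (1 + 1)}) (by rw [hTc]; exact ⟨hTA, f, f_nn, f_z⟩)
        ?_ ?_
      · rw [linearIndependent_iff_card_le_finrank_span, Fintype.card_coe]
        refine hcard.trans ?_
        have : Set.range (fun t : (({p, r 1, r (1 + 1)} : Finset V)) => c t) = c '' T := by
          rw [← hTc]
          ext y
          simp
        rw [this, Set.finrank]
        have := hp3 1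
        rw [rk] at this
        rw [hT, this]
      · intro w hw
        rw [hTc]
        rcases Finset.mem_insert.mp (Finset.mem_coe.mp hw) with h | h
        · rw [h]; exact h1T
        · rw [Finset.mem_singleton.mp h]; exact h2T
    have hres := hC i {r 1, r (1 + 1)} hface
      (by
        rintro ⟨h, -⟩
        rcases Finset.mem_insert.mp h with h | h
        · exact hpr _ h
        · exact hpr _ (Finset.mem_singleton.mp h))
      (fun _ => 1) (fun _ _ => one_pos) y12
      (by rw [Finset.sum_pair r21.symm]; simp [hy12]) hNy hseg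
    have hidx : (1 = i ∨ 1 = i + 1) ∧ (1 + 1 = i ∨ 1 + 1 = i + 1) := by
      have hA : r 1 = r i ∨ r 1 = r (i + 1) := by
        rcases hres with h | h
        · rcases h (by simp : r 1 ∈ ((({r 1, r (1 + 1)} : Finset V)) : Set V)) with h | h | h
          · exact absurd h.symm (hpr _)
          · exact Or.inl h
          · exact Or.inr h
        · rcases h (by simp : r 1 ∈ ((({r 1, r (1 + 1)} : Finset V)) : Set V)) with h | h | h
          · exact absurd h.symm (hqr _)
          · exact Or.inl h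
          · exact Or.inr h
      have hB : r (1 + 1) = r i ∨ r (1 + 1) = r (i + 1) := by
        rcases hres with h | h
        · rcases h (by simp : r (1 + 1) ∈ ((({r 1, r (1 + 1)} : Finset V)) : Set V)) with h | h | h
          · exact absurd h.symm (hpr _)
          · exact Or.inl h
          · exact Or.inr h
        · rcases h (by simp : r (1 + 1) ∈ ((({r 1, r (1 + 1)} : Finset V)) : Set V)) with h | h | h
          · exact absurd h.symm (hqr _)
          · exact Or.inl h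
          · exact Or.inr h
      exact ⟨hA.imp (fun h => hinj h) (fun h => hinj h), hB.imp (fun h => hinj h) (fun h => hinj h)⟩
    obtain ⟨hA, hB⟩ := hidx
    rcases hA with h | h
    · exact hi h.symm
    · have hi0 : i = 0 := by
        have : 0 + 1 = i + 1 := by rw [zero_add]; exact h
        exact (add_right_cancel this).symm
      subst hi0
      rcases hB with h | h
      · exact h20 h
      · rw [zero_add] at h; exact h21 h
  -- the two sides
  have hsign : ∀ x : E5, 0 < g0 x + g1 x + gs x →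
      ((P (1 + 1)).1 - (P 1).1) * ((Pi x).2 - (P 1).2)
        - ((P (1 + 1)).2 - (P 1).2) * ((Pi x).1 - (P 1).1)
      = - g x / ((g0 (c (r (1 + 1))) + g1 (c (r (1 + 1))) + gs (c (r (1 + 1))))
        * (g0 x + g1 x + gs x)) := by
    intro x hx
    have e2 := hNr (1 + 1)
    rw [hP1, hgx]
    simp only [hP, hPi, plane, sub_zero]
    field_simp
    ring
  have hWne : W (Pi xm) ≠ W (Pi xp) := by
    refine hW2 (Pi y12) (Pi xm) (Pi xp) hopen hother ?_ ?_
      (hmissT Fm hFm hrkm hTFm hqFm) (hmissT Fp hFp hrkp hTFp hqFp)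
    · rw [hsign xm hNxm]
      exact div_pos (by linarith) (mul_pos (hNr _) hNxm)
    · rw [hsign xp hNxp]
      exact div_neg_of_neg_of_pos (by linarith) (mul_pos (hNr _) hNxp)
  -- outside vertices of a side
  have hWside : ∀ F : Finset V, FaceOn c A (F : Set V) → 4 ≤ rk c (F : Set V) → T ⊆ F → q ∉ F →
      ∀ w ∈ F, w ∉ Set.range r → w ≠ p → W (Pi (c w)) = W (Pi (∑ w ∈ F, c w)) := by
    intro F hF hrkF hTF hqF w hw hwr hwp
    have hwq : w ≠ q := fun h => hqF (h ▸ hw)
    apply hW1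
    intro i
    rw [Set.disjoint_left]
    rintro y ⟨a, b, ha, hb, hab, rfl⟩ hy
    rcases hb.eq_or_lt with hb0 | hb0
    · have ha1 : a = 1 := by linarith
      rw [← hb0, ha1, zero_smul, one_smul, add_zero] at hy
      exact hpt w (hF.1 hw) hwr hwp hwq i hy
    · exact hmiss F hF hrkF (hTF hpT) hqF (fun t => if t = w then 1 else 0)
        (fun t _ => by split_ifs <;> norm_num) (c w) (∑ w ∈ F, c w)
        (by
          simp only [ite_smul, one_smul, zero_smul]
          rw [Finset.sum_ite_eq' F w c, if_pos hw])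
        (hN w (hF.1 hw) hwp hwq) rfl (hsumN F hF.1 (hTF h1T)) a b ha hb0 hab i hy
  -- one side has no outside vertex
  by_cases hcase : ∀ w ∈ Fp, w = p ∨ w ∈ Set.range r
  · exact endgame hc r hinj hpr hchord hFp hcase (hTFp hpT) (hTFp h1T) hrkp
  · push Not at hcase
    obtain ⟨u, huF, hup, hur⟩ := hcase
    have hcase' : ∀ w ∈ Fm, w = p ∨ w ∈ Set.range r := by
      by_contra hcon
      push Not at hcon
      obtain ⟨v, hvF, hvp, hvr⟩ := hcon
      have huq : u ≠ q := fun h => hqFp (h ▸ huF)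
      have hvq : v ≠ q := fun h => hqFm (h ▸ hvF)
      have e1 := hWside Fp hFp hrkp hTFp hqFp u huF hur hup
      have e2 := hWside Fm hFm hrkm hTFm hqFm v hvF hvr hvp
      have e3 := hWconn u (hFp.1 huF) v (hFm.1 hvF) hur hvr hup huq hvp hvq
      exact hWne (by rw [← e1, ← e2, e3])
    exact endgame hc r hinj hpr hchord hFm hcase' (hTFm hpT) (hTFm h1T) hrkm

end Pool.Agent.Helper29.G4
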