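import Pool.Agent.Helper22.G4.Cone
import Pool.Agent.Helper22.G4.St.P2
import Pool.Agent.Helper22.G4.St.P3
import Pool.Agent.Helper22.G4.St.P4

set_option autoImplicit false

/-! # G4-P8, first half: a face contained in `R ∪ {p}` of rank at least four gives the flat face -/

namespace Pool.Agent.Helper29.G4

open Pool.Agent.Helper22.G4 Submodule

variable {V : Type*}

open Fin.NatCast in
lemma fin_all {m : ℕ} (S : Fin (m + 4) → Prop) (i₀ : Fin (m + 4)) (h0 : S i₀)
    (hs : ∀ i, S i → S (i + 1)) : ∀ i, S i := by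
  intro i
  have key : ∀ k : ℕ, S (i₀ + (k : Fin (m + 4))) := by
    intro k
    induction k with
    | zero => simpa using h0
    | succ k ih =>
      have := hs _ ih
      rw [add_assoc] at this
      simpa using this
  have := key (i - i₀).val
  simpa using this

lemma two_ne_zero' (n : ℕ) : (1 + 1 : Fin (n + 4)) ≠ 0 := by
  intro h
  have := congrArg Fin.val h
  rw [Fin.val_add] at this
  simp only [Fin.val_one', Fin.val_zero] at this
  have h1 : 1 % (n + 4) = 1 := Nat.mod_eq_of_lt (by omega)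
  rw [h1] at this
  have h2 : (1 + 1) % (n + 4) = 2 := Nat.mod_eq_of_lt (by omega)
  omega

/-- the neighbours of `r i` in a face contained in `R ∪ {p}` -/
lemma nbr_sub {c : V → E5} {A : Finset V} {n : ℕ} (r : Fin (n + 4) → V) {p : V}
    (hchord : ∀ i j, j ≠ i → j ≠ i + 1 → i ≠ j + 1 → ¬ FaceOn c A {r i, r j})
    {F : Finset V} (hFsub : ∀ w ∈ F, w = p ∨ w ∈ Set.range r) {i : Fin (n + 4)} {t : V}
    (htF : t ∈ F) (hti : t ≠ r i) (hface : FaceOn c A {r i, t}) :
    t = p ∨ t = r (i + 1) ∨ t = r (i - 1) := by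
  rcases hFsub t htF with h | ⟨j, rfl⟩
  · exact Or.inl h
  · right
    by_contra hcon
    rw [not_or] at hcon
    obtain ⟨h1, h2⟩ := hcon
    refine hchord i j ?_ ?_ ?_ hface
    · rintro rfl; exact hti rfl
    · rintro rfl; exact h1 rfl
    · intro h
      apply h2
      rw [h]
      simp

lemma rk_insert_lt {c : V → E5} {T F : Set V} (hTF : T ⊆ F) (f : E5 →ₗ[ℝ] ℝ)
    (hf : ∀ w ∈ T, f (c w) = 0) {w : V} (hw : w ∈ F) (hfw : f (c w) ≠ 0) :
    rk c T < rk c F := by
  refine Submodule.finrank_lt_finrank_of_lt ?_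
  refine lt_of_le_of_ne (span_mono (Set.image_mono hTF)) ?_
  intro heq
  have h1 : c w ∈ span ℝ (c '' F) := subset_span ⟨w, hw, rfl⟩
  rw [← heq] at h1
  have h2 : span ℝ (c '' T) ≤ LinearMap.ker f := by
    rw [span_le]
    rintro _ ⟨v, hv, rfl⟩
    exact hf v hv
  exact hfw (h2 h1)

/-- If a face `F` of rank at least four is contained in `R ∪ {p}`, then `R` is a face of rank
three. -/
theorem endgame {c : V → E5} {A : Finset V} (hc : Conf c A)
    {n : ℕ} (r : Fin (n + 4) → V) (hinj : Function.Injective r)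
    {p : V} (hpr : ∀ i, p ≠ r i)
    (hchord : ∀ i j, j ≠ i → j ≠ i + 1 → i ≠ j + 1 → ¬ FaceOn c A {r i, r j})
    {F : Finset V} (hF : FaceOn c A (F : Set V)) (hFsub : ∀ w ∈ F, w = p ∨ w ∈ Set.range r)
    (hpF : p ∈ F) (h1F : r 1 ∈ F) (hrk : 4 ≤ rk c (F : Set V)) :
    FaceOn c A (Set.range r) ∧ rk c (Set.range r) = 3 := by
  classical
  have hFA : F ⊆ A := fun w hw => hF.1 hw
  -- all `r i` lie in `F`
  have hstep : ∀ i, r i ∈ F → r (i + 1) ∈ F := by
    intro i hi
    by_contra hni
    have h1 := rank_le_neighbours hc hF hi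
    have h2 : {t | t ∈ F ∧ t ≠ r i ∧ FaceOn c A {r i, t}} ⊆ ({p, r (i - 1)} : Set V) := by
      rintro t ⟨ht1, ht2, ht3⟩
      rcases nbr_sub r hchord hFsub ht1 ht2 ht3 with h | h | h
      · exact Or.inl h
      · rw [h] at ht1; exact absurd ht1 hni
      · exact Or.inr h
    have h3 := Set.ncard_le_ncard h2 (Set.toFinite _)
    have h4 := Set.ncard_insert_le p ({r (i - 1)} : Set V)
    rw [Set.ncard_singleton] at h4
    omega
  have hall : ∀ i, r i ∈ F := fin_all (fun i => r i ∈ F) 1 h1F hstep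
  -- core at `r 1`
  have hcF : Conf c F := hc.restrict hFA
  have h10 : (1 : Fin (n + 4)) ≠ 0 := by simp
  have h20 : (1 + 1 : Fin (n + 4)) ≠ 0 := two_ne_zero' n
  have h21 : (1 + 1 : Fin (n + 4)) ≠ 1 := by simp
  set v : Fin 4 → E5 := ![c (r 1), c (r 0), c (r (1 + 1)), c p] with hv
  have hcore : ∀ w ∈ F, ∃ (a b0 b2 bp : ℝ), 0 ≤ b0 ∧ 0 ≤ b2 ∧ 0 ≤ bp ∧
      c w = a • c (r 1) + b0 • c (r 0) + b2 • c (r (1 + 1)) + bp • c p := by
    intro w hw
    obtain ⟨a, b, hb, hbn, hcw⟩ := core hcF (hall 1) hw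
    refine ⟨a, b (r 0), b (r (1 + 1)), b p, hb _ (hall _), hb _ (hall _), hb _ hpF, ?_⟩
    have hT : ({r 0, r (1 + 1), p} : Finset V) ⊆ F := by
      intro t ht
      simp only [Finset.mem_insert, Finset.mem_singleton] at ht
      rcases ht with rfl | rfl | rfl
      · exact hall _
      · exact hall _
      · exact hpF
    have hsum : ∑ t ∈ ({r 0, r (1 + 1), p} : Finset V), b t • c t = ∑ t ∈ F, b t • c t := by
      refine Finset.sum_subset hT ?_
      intro t htF htT
      by_cases hbt : b t = 0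
      · rw [hbt, zero_smul]
      · exfalso
        obtain ⟨h1, h2⟩ := hbn t htF hbt
        have h3 : FaceOn c A {r 1, t} := hF.trans h2
        apply htT
        simp only [Finset.mem_insert, Finset.mem_singleton]
        rcases nbr_sub r hchord hFsub htF h1 h3 with h | h | h
        · exact Or.inr (Or.inr h)
        · exact Or.inr (Or.inl h)
        · left; rw [h]; simp
    rw [hcw, ← hsum, Finset.sum_insert, Finset.sum_insert, Finset.sum_singleton]
    · abel
    · simp only [Finset.mem_singleton]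
      exact fun h => hpr _ h.symm
    · simp only [Finset.mem_insert, Finset.mem_singleton, not_or]
      exact ⟨fun h => h20 (hinj h).symm, fun h => hpr _ h.symm⟩
  -- linear independence
  have hli : LinearIndependent ℝ v := by
    rw [linearIndependent_iff_card_le_finrank_span]
    have h1 : span ℝ (c '' (F : Set V)) ≤ span ℝ (Set.range v) := by
      rw [span_le]
      rintro _ ⟨w, hw, rfl⟩
      obtain ⟨a, b0, b2, bp, -, -, -, h⟩ := hcore w hw
      rw [h]
      have m0 : c (r 1) ∈ span ℝ (Set.range v) := subset_span ⟨0, rfl⟩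
      have m1 : c (r 0) ∈ span ℝ (Set.range v) := subset_span ⟨1, rfl⟩
      have m2 : c (r (1 + 1)) ∈ span ℝ (Set.range v) := subset_span ⟨2, rfl⟩
      have m3 : c p ∈ span ℝ (Set.range v) := subset_span ⟨3, rfl⟩
      exact add_mem (add_mem (add_mem (smul_mem _ _ m0) (smul_mem _ _ m1)) (smul_mem _ _ m2))
        (smul_mem _ _ m3)
    have h2 := Submodule.finrank_mono h1
    rw [Fintype.card_fin]
    exact hrk.trans h2
  -- the `p`-coordinate
  obtain ⟨l, hl⟩ := LinearMap.exists_extend ((Finsupp.lapply 3).comp hli.repr)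
  have hlv : ∀ i, l (v i) = if i = 3 then 1 else 0 := by
    intro i
    have h1 : v i ∈ span ℝ (Set.range v) := subset_span ⟨i, rfl⟩
    have h2 := LinearMap.congr_fun hl ⟨v i, h1⟩
    simp only [LinearMap.comp_apply, Submodule.subtype_apply] at h2
    rw [h2, hli.repr_eq_single i ⟨v i, h1⟩ rfl, Finsupp.lapply_apply, Finsupp.single_apply]
  have hl1 : l (c (r 1)) = 0 := by have := hlv 0; simpa [hv] using this
  have hl0 : l (c (r 0)) = 0 := by have := hlv 1; simpa [hv] using this
  have hl2 : l (c (r (1 + 1))) = 0 := by have := hlv 2; simpa [hv] using this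
  have hlp : l (c p) = 1 := by have := hlv 3; simpa [hv] using this
  -- the face of `F`
  set Z : Finset V := F.filter (fun w => l (c w) = 0) with hZ
  have hZF : FaceOn c F (Z : Set V) := by
    refine ⟨?_, l, ?_, ?_⟩
    · intro w hw
      exact (Finset.mem_filter.mp (Finset.mem_coe.mp hw)).1
    · intro w hw
      obtain ⟨a, b0, b2, bp, -, -, hbp, h⟩ := hcore w hw
      rw [h]
      simp only [map_add, map_smul, hl1, hl0, hl2, hlp, smul_eq_mul]
      linarith
    · intro w hw
      rw [Finset.mem_coe, hZ, Finset.mem_filter]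
      exact ⟨fun h => ⟨hw, h⟩, fun h => h.2⟩
  have hZA : FaceOn c A (Z : Set V) := hF.trans hZF
  have hmem0 : r 0 ∈ Z := Finset.mem_filter.mpr ⟨hall _, hl0⟩
  have hmem1 : r 1 ∈ Z := Finset.mem_filter.mpr ⟨hall _, hl1⟩
  have hmem2 : r (1 + 1) ∈ Z := Finset.mem_filter.mpr ⟨hall _, hl2⟩
  have hpZ : p ∉ Z := by
    intro h
    have := (Finset.mem_filter.mp h).2
    rw [hlp] at this
    exact one_ne_zero this
  have hrk3 : rk c (Z : Set V) = 3 := by
    set u : Fin 3 → E5 := ![c (r 1), c (r 0), c (r (1 + 1))] with hu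
    have hspan : span ℝ (c '' (Z : Set V)) = span ℝ (Set.range u) := by
      apply le_antisymm
      · rw [span_le]
        rintro _ ⟨w, hw, rfl⟩
        obtain ⟨hwF, hlw⟩ := Finset.mem_filter.mp (Finset.mem_coe.mp hw)
        obtain ⟨a, b0, b2, bp, -, -, hbp, h⟩ := hcore w hwF
        have hbp0 : bp = 0 := by
          rw [h] at hlw
          simp only [map_add, map_smul, hl1, hl0, hl2, hlp, smul_eq_mul] at hlw
          linarith
        rw [h, hbp0, zero_smul, add_zero]
        have m0 : c (r 1) ∈ span ℝ (Set.range u) := subset_span ⟨0, rfl⟩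
        have m1 : c (r 0) ∈ span ℝ (Set.range u) := subset_span ⟨1, rfl⟩
        have m2 : c (r (1 + 1)) ∈ span ℝ (Set.range u) := subset_span ⟨2, rfl⟩
        exact add_mem (add_mem (smul_mem _ _ m0) (smul_mem _ _ m1)) (smul_mem _ _ m2)
      · rw [span_le]
        rintro _ ⟨i, rfl⟩
        fin_cases i
        · exact subset_span ⟨r 1, hmem1, rfl⟩
        · exact subset_span ⟨r 0, hmem0, rfl⟩
        · exact subset_span ⟨r (1 + 1), hmem2, rfl⟩
    have hliu : LinearIndependent ℝ u := by
      have h := hli.comp (fun i : Fin 3 => (Fin.castSucc i : Fin 4)) (Fin.castSucc_injective 3)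
      convert h using 1
      funext i
      fin_cases i <;> rfl
    rw [rk, hspan, finrank_span_eq_card hliu, Fintype.card_fin]
  have hZsub : ∀ w ∈ Z, w = p ∨ w ∈ Set.range r := fun w hw =>
    hFsub w (Finset.mem_filter.mp hw).1
  have hstepZ : ∀ i, r i ∈ Z → r (i + 1) ∈ Z := by
    intro i hi
    by_contra hni
    have h1 := rank_le_neighbours hc hZA hi
    have h2 : {t | t ∈ Z ∧ t ≠ r i ∧ FaceOn c A {r i, t}} ⊆ ({r (i - 1)} : Set V) := by
      rintro t ⟨ht1, ht2, ht3⟩
      rcases nbr_sub r hchord hZsub ht1 ht2 ht3 with h | h | h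
      · rw [h] at ht1; exact absurd ht1 hpZ
      · rw [h] at ht1; exact absurd ht1 hni
      · exact h
    have h3 := Set.ncard_le_ncard h2 (Set.toFinite _)
    rw [Set.ncard_singleton] at h3
    omega
  have hallZ : ∀ i, r i ∈ Z := fin_all (fun i => r i ∈ Z) 1 hmem1 hstepZ
  have hZR : (Z : Set V) = Set.range r := by
    ext w
    constructor
    · intro hw
      rcases hZsub w hw with h | h
      · rw [h] at hw; exact absurd hw hpZ
      · exact h
    · rintro ⟨i, rfl⟩
      exact hallZ i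
  rw [← hZR]
  exact ⟨hZA, hrk3⟩

end Pool.Agent.Helper29.G4
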